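import Pool.Agent.Y307.WS.Sel
import Pool.Agent.Y307.WS.Pos

set_option autoImplicit false

open MvPolynomial Finset

/-!
# The weak Shanks conjecture fails for every index set which is not contained in a line

Optimal polynomial approximants in the Hardy space of the polydisk `𝔻^N`. For every finite set `I`
of exponents with `0 ∈ I` which is not contained in a line through the origin there is a polynomial
`f` without zeros on the closed polydisk whose (unique) optimal polynomial approximant with
exponents in `I` has a zero in the open polydisk, even on the diagonal; for the sets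
`{0, α, 2α, …, kα}` there are never zeros. For the degree-lexicographic ordering of the bidisk the
`n`-th approximants are zero-free for all such `f` exactly when `n ≤ 1`.
-/

namespace Pool.Agent.Results.MP_52e642_an.EveryIndexSet

open Pool.Agent.Y307.WS

/-- Position of the monomial `z₁^(m 0) z₂^(m 1)` in the degree-lexicographic sequence
`1, z₁, z₂, z₁², z₁z₂, z₂², z₁³, …` (positions start at `0`). -/
def position (m : Fin 2 →₀ ℕ) : ℕ := (m 0 + m 1) * (m 0 + m 1 + 1) / 2 + m 1

lemma le_position (m : Fin 2 →₀ ℕ) : m 0 + m 1 ≤ position m := by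
  unfold position
  rcases Nat.eq_zero_or_pos (m 0 + m 1) with h | h
  · omega
  · have h1 : (m 0 + m 1) * 2 ≤ (m 0 + m 1) * (m 0 + m 1 + 1) := Nat.mul_le_mul_left _ (by omega)
    omega

lemma position_finite (n : ℕ) : {m : Fin 2 →₀ ℕ | position m ≤ n}.Finite := by
  have h1 : {m : Fin 2 →₀ ℕ | position m ≤ n} ⊆
      (fun p : ℕ × ℕ => (Finsupp.single (0 : Fin 2) p.1 + Finsupp.single (1 : Fin 2) p.2)) ''
        ((Finset.range (n + 1) ×ˢ Finset.range (n + 1) : Finset (ℕ × ℕ)) : Set (ℕ × ℕ)) := by
    intro m hm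
    have hm' : position m ≤ n := hm
    have h2 := le_position m
    refine ⟨(m 0, m 1), ?_, ?_⟩
    · simp only [Finset.coe_product, Set.mem_prod, Finset.mem_coe, Finset.mem_range]
      omega
    · ext k
      fin_cases k <;> simp
  exact (Set.Finite.image _ (Finset.finite_toSet _)).subset h1

/-- **Main theorem.** -/
theorem result :
    (∀ (N : ℕ) (I : Set (Fin N →₀ ℕ)), I.Finite → (0 : Fin N →₀ ℕ) ∈ I →
      (∃ a ∈ I, ∃ b ∈ I, ∃ i j, a i * b j ≠ a j * b i) →
      ∃ a ∈ I, ∃ b ∈ I, ∃ f : MvPolynomial (Fin N) ℂ,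
        f = (3 + 2 * monomial a 1) * (3 + 2 * monomial b 1) *
          (2 + monomial a 1 * monomial b 1) ^ 2 ∧
        (∀ z : Fin N → ℂ, (∀ i, ‖z i‖ ≤ 1) → eval z f ≠ 0) ∧
        ∃ q, (IsOPA I f q ∧ ∀ q', IsOPA I f q' → q' = q) ∧
          ∃ s : ℝ, 0 < s ∧ s < 1 ∧ eval (fun _ : Fin N => (s : ℂ)) q = 0) ∧
    (∀ (N : ℕ) (α : Fin N →₀ ℕ) (k : ℕ) (f q : MvPolynomial (Fin N) ℂ), f.coeff 0 ≠ 0 →
      IsOPA {γ | ∃ j ≤ k, γ = j • α} f q →
      ∀ z : Fin N → ℂ, (∀ i, ‖z i‖ ≤ 1) → eval z q ≠ 0) ∧
    (∀ n : ℕ,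
      (∀ f : MvPolynomial (Fin 2) ℂ, (∀ z : Fin 2 → ℂ, (∀ i, ‖z i‖ ≤ 1) → eval z f ≠ 0) →
        ∀ q, IsOPA {m | position m ≤ n} f q →
          ∀ z : Fin 2 → ℂ, (∀ i, ‖z i‖ < 1) → eval z q ≠ 0) ↔ n ≤ 1) := by
  refine ⟨fun N I hfin h0 hI => failure hfin h0 hI,
    fun N α k f q hf hq z hz => positive hf hq hz, fun n => ⟨fun h => ?_, fun hn => ?_⟩⟩
  · by_contra hc
    obtain ⟨a, _, b, _, f, _, hf, q, hq, s, hs0, hs1, hs⟩ :=
      failure (N := 2) (position_finite n) (by simp [position])
        ⟨Finsupp.single 0 1, by simp [position]; omega, Finsupp.single 1 1,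
          by simp [position]; omega, 0, 1, by simp⟩
    refine h f hf q hq.1 (fun _ => (s : ℂ)) (fun _ => ?_) hs
    rw [Complex.norm_real, Real.norm_eq_abs, abs_of_pos hs0]
    exact hs1
  · intro f hf q hq z hz
    have hf0 : f.coeff 0 ≠ 0 := by
      have h1 := hf 0 (fun i => by simp)
      rw [← constantCoeff_eq]
      rwa [eval_zero] at h1
    have hI : {m : Fin 2 →₀ ℕ | position m ≤ n} =
        {γ | ∃ j ≤ n, γ = j • Finsupp.single (0 : Fin 2) 1} := by
      ext m
      simp only [Set.mem_setOf_eq]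
      constructor
      · intro hm
        have h1 := le_position m
        have h2 : m 1 = 0 := by
          unfold position at hm
          rcases Nat.eq_zero_or_pos (m 0 + m 1) with h | h
          · omega
          · have h3 : (m 0 + m 1) * 2 ≤ (m 0 + m 1) * (m 0 + m 1 + 1) :=
              Nat.mul_le_mul_left _ (by omega)
            omega
        refine ⟨m 0, by omega, ?_⟩
        ext k
        fin_cases k <;> simp [h2]
      · rintro ⟨j, hj, rfl⟩
        unfold position
        have h3 : j = 0 ∨ j = 1 := by omega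
        rcases h3 with rfl | rfl <;> simp <;> omega
    rw [hI] at hq
    exact positive hf0 hq fun i => (hz i).le

end Pool.Agent.Results.MP_52e642_an.EveryIndexSet
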